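import Pool.Agent.helper42.CQ.SpecC

/-! # Row cq:MNA (MP_ba8873_co) -/

set_option autoImplicit false

namespace Pool.Agent.helper42.CQ

open Finset Pool.Agent.helper24.CG

theorem MNA (hSET : SET_stmt) (hRAR : RAR_stmt) (hNUA : NUA_stmt) : MNA_stmt := by
  intro ε hε
  obtain ⟨ha1, ha2, hn1, hn2⟩ := hNUA
  obtain ⟨δ, hδ, hR⟩ := hRAR ε (aa 2 1) hε ha1 ha2
  obtain ⟨N₀, hN₀⟩ := hSET 2 1 2 ε δ (by norm_num) le_rfl le_rfl hε hδ ha1 ha2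
  refine ⟨N₀, fun N hN => ?_⟩
  by_contra hcon
  push Not at hcon
  have h32 : (1 : ℝ) + ((1 : ℕ) : ℝ) / ((2 : ℕ) : ℝ) = 3 / 2 := by norm_num
  have hS := hN₀ N hN
  rw [h32] at hS
  obtain ⟨q, l, E, T, Ts, w, hTE, -, hq1, hqδ, hl0, hlq, hcard, hw, hW, -, hSU, -, hA⟩ := hS hcon
  have hAA := hA (aa 2 1) (1 - aa 2 1) ha1 ha2 (by linarith) (by linarith) hn1 hn2
  have hST : ∑ e ∈ T, ((1 - aa 2 1) - max 0 (w e - aa 2 1)) = ∑ e ∈ T, (1 - w e) := by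
    refine sum_congr rfl fun e he => ?_
    have h1 := (hw e (hTE he)).1
    rw [max_eq_right (by linarith)]
    ring
  rw [hST] at hAA
  have hSTt : ∑ e ∈ T, (1 - w e) ≤ (T.card : ℝ) := by
    have h1 : ∑ e ∈ T, (1 - w e) ≤ ∑ _e ∈ T, (1 : ℝ) := by
      refine sum_le_sum fun e he => ?_
      have h1 := (hw e (hTE he)).1
      linarith
    rwa [sum_const, nsmul_eq_mul, mul_one] at h1
  have hsum : ∑ e ∈ T, (1 - w e) + ∑ e ∈ E \ T, (1 - w e) = q * (q - 1) / 2 - ∑ e ∈ E, w e := by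
    have h1 : ∑ e ∈ E \ T, (1 - w e) + ∑ e ∈ T, (1 - w e) = ∑ e ∈ E, (1 - w e) :=
      sum_sdiff hTE
    rw [add_comm, h1, sum_sub_distrib, sum_const, nsmul_eq_mul, mul_one, hcard]
  exact hR q l (∑ e ∈ E, w e) (∑ e ∈ T, (1 - w e)) (∑ e ∈ E \ T, (1 - w e)) (T.card : ℝ)
    hq1 hqδ hl0 hlq hW hSU hSTt hsum hAA

end Pool.Agent.helper42.CQ
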