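import Pool.Agent.helper42.CQ.SpecC

/-! # Row cq:WTC (MP_ba8873_co) -/

set_option autoImplicit false

namespace Pool.Agent.helper42.CQ

open Finset Pool.Agent.helper24.CG

theorem WTC (hWTA : WTA_stmt) : WTC_stmt := by
  intro N m b K H hm hb hH E hE e he heK
  obtain ⟨h0, -, hW, -, -⟩ := hWTA N m b K H hm hb hH
  obtain ⟨hj1, hjm, hwt⟩ := hW E hE e he heK
  set j := (E ∩ ed K).card with hj
  have hwt0 : 0 ≤ wt b m K H e := (h0 e).1
  have hmR : (1 : ℝ) ≤ m := by exact_mod_cast hm
  have hbR : (1 : ℝ) ≤ b := by exact_mod_cast hb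
  have hjR : (1 : ℝ) ≤ (j : ℝ) := by exact_mod_cast hj1
  have hjmR : (j : ℝ) ≤ m := by exact_mod_cast hjm
  have hm0 : (0 : ℝ) < m := by linarith
  have hb0 : (0 : ℝ) < b := by linarith
  have hj0 : (0 : ℝ) < j := by linarith
  have hr0 : 0 < (b : ℝ) / m := by positivity
  have hD0 : 0 < Real.log (1 + (b : ℝ) / m) := Real.log_pos (by linarith)
  have hDr : Real.log (1 + (b : ℝ) / m) ≤ (b : ℝ) / m := by
    have := Real.log_le_sub_one_of_pos (show (0 : ℝ) < 1 + (b : ℝ) / m by linarith)
    linarith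
  refine ⟨?_, ?_, ?_⟩
  · rw [hwt, div_le_div_iff₀ (by positivity) (by positivity)]
    have h1 : (1 + (b : ℝ)) ^ ((j : ℝ) / m) ≤ 1 + (j : ℝ) / m * b :=
      _root_.rpow_one_add_le_one_add_mul_self (by linarith) (by positivity)
        (by rw [div_le_one hm0]; exact hjmR)
    have h2 : (j : ℝ) / m * Real.log (1 + (b : ℝ)) ≤ Real.log (1 + (b : ℝ) * j / m) := by
      rw [← Real.log_rpow (by linarith)]
      apply Real.log_le_log (by positivity)
      refine h1.trans (le_of_eq ?_)
      ring
    have h3 : (j : ℝ) * Real.log (1 + (b : ℝ)) ≤ m * Real.log (1 + (b : ℝ) * j / m) := by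
      have := mul_le_mul_of_nonneg_left h2 hm0.le
      have e1 : (m : ℝ) * ((j : ℝ) / m * Real.log (1 + (b : ℝ))) = j * Real.log (1 + (b : ℝ)) := by
        field_simp
      rwa [e1] at this
    nlinarith [mul_le_mul_of_nonneg_left h3 hD0.le]
  · set x := (b : ℝ) * j / m with hx
    have hx0 : 0 < x := by positivity
    have h1 : x * (1 - x / 2) ≤ Real.log (1 + x) := by
      have h2 := Real.le_log_one_add_of_nonneg hx0.le
      refine le_trans ?_ h2
      rw [le_div_iff₀ (by linarith)]
      have h3 : 0 ≤ x ^ 3 := by positivity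
      nlinarith
    have e1 : (b : ℝ) * j / (2 * m) = x / 2 := by
      rw [hx]
      field_simp
    rw [e1]
    rcases le_or_gt (1 - x / 2) 0 with h | h
    · linarith
    · rw [hwt, le_div_iff₀ (by positivity)]
      refine le_trans ?_ h1
      have h4 : (j : ℝ) * Real.log (1 + (b : ℝ) / m) ≤ x := by
        have := mul_le_mul_of_nonneg_left hDr hj0.le
        refine this.trans (le_of_eq ?_)
        rw [hx]
        ring
      calc (1 - x / 2) * ((j : ℝ) * Real.log (1 + (b : ℝ) / m)) ≤ (1 - x / 2) * x :=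
            mul_le_mul_of_nonneg_left h4 h.le
        _ = x * (1 - x / 2) := by ring
  · intro hle
    have : j = 1 := le_antisymm hle hj1
    rw [hwt, this]
    simp only [Nat.cast_one, mul_one, one_mul]
    exact div_self hD0.ne'

end Pool.Agent.helper42.CQ
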